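import Pool.Agent.W5h44.Szlenk.Defs

/-!
# The finite Borel classes, and sets defined by iterating the quantifier there are infinitely many
-/

open Set

namespace Pool.Agent.W5h44.Szlenk

lemma IsSigma.one_le {Z : Type} [TopologicalSpace Z] {n : ℕ} {A : Set Z} (h : IsSigma n A) :
    1 ≤ n := by
  cases h with
  | isOpen A h => exact le_rfl
  | iUnion n m B hm h => exact Nat.one_le_iff_ne_zero.2 (fun h0 => by
      have := hm 0
      omega)

lemma IsSigma.preimage {Z Y : Type} [TopologicalSpace Z] [TopologicalSpace Y] {f : Z → Y}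
    (hf : Continuous f) {n : ℕ} {A : Set Y} (h : IsSigma n A) : IsSigma n (f ⁻¹' A) := by
  induction h with
  | isOpen A h => exact IsSigma.isOpen _ (h.preimage hf)
  | iUnion n m B hm h ih =>
    rw [preimage_iUnion]
    exact IsSigma.iUnion n m _ hm ih

/-- The iterated quantifier. -/
def TT : ℕ → (List ℕ → Bool) → Prop
  | 0, b => b [] = true
  | M + 1, b => {i : ℕ | TT M (fun ν => b (i :: ν))}.Infinite

/-- The sets defined by the iterated quantifier. -/
def RR {Z : Type} [TopologicalSpace Z] : ℕ → Set Z → Prop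
  | 0, A => IsClopen A
  | M + 1, A => ∃ B : ℕ → Set Z, (∀ i, RR M (B i)) ∧ ∀ c, c ∈ A ↔ {i | c ∈ B i}.Infinite

section RR

variable {Z : Type} [TopologicalSpace Z]

lemma RR.exists_map {M : ℕ} {A : Set Z} (h : RR M A) :
    ∃ g : Z → List ℕ → Bool, Continuous g ∧ ∀ c, c ∈ A ↔ TT M (g c) := by
  induction M generalizing A with
  | zero =>
    classical
    refine ⟨fun c _ => decide (c ∈ A), continuous_pi fun _ => ?_, fun c => ?_⟩
    · have h1 : IsClopen A := h
      refine (IsLocallyConstant.iff_exists_open _).2 (fun c => ?_) |>.continuous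
      by_cases hc : c ∈ A
      · exact ⟨A, h1.isOpen, hc, fun x hx => by simp [hx, hc]⟩
      · exact ⟨Aᶜ, h1.compl.isOpen, hc, fun x hx => by
          have hx' : x ∉ A := hx
          simp [hx', hc]⟩
    · show c ∈ A ↔ decide (c ∈ A) = true
      simp
  | succ M ih =>
    obtain ⟨B, hB, hA⟩ := h
    choose g hg hgB using fun i => ih (hB i)
    refine ⟨fun c ν => match ν with
      | [] => false
      | i :: ν => g i c ν, continuous_pi fun ν => ?_, fun c => ?_⟩
    · match ν with
      | [] => exact continuous_const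
      | i :: ν => exact (continuous_apply ν).comp (hg i)
    · rw [hA]
      show {i | c ∈ B i}.Infinite ↔ {i | TT M (g i c)}.Infinite
      have : {i | c ∈ B i} = {i | TT M (g i c)} := by
        ext i
        exact hgB i c
      rw [this]

lemma RR.succ {M : ℕ} {A : Set Z} (h : RR M A) : RR (M + 1) A := by
  refine ⟨fun _ => A, fun _ => h, fun c => ?_⟩
  by_cases hc : c ∈ A
  · have : {i : ℕ | c ∈ A} = univ := by
      ext i; simp [hc]
    simp only [hc, true_iff]
    rw [show {i : ℕ | True} = univ from rfl]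
    exact infinite_univ
  · simp only [hc, false_iff]
    simp

lemma RR.mono {M M' : ℕ} (hM : M ≤ M') {A : Set Z} (h : RR M A) : RR M' A := by
  induction hM with
  | refl => exact h
  | step _ ih => exact ih.succ

lemma RR.union {M : ℕ} {A B : Set Z} (hA : RR M A) (hB : RR M B) : RR M (A ∪ B) := by
  induction M generalizing A B with
  | zero => exact IsClopen.union hA hB
  | succ M ih =>
    obtain ⟨A', hA', hA⟩ := hA
    obtain ⟨B', hB', hB⟩ := hB
    refine ⟨fun i => A' i ∪ B' i, fun i => ih (hA' i) (hB' i), fun c => ?_⟩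
    rw [mem_union, hA, hB, ← infinite_union]
    rfl

lemma RR.biUnion {M : ℕ} {A : ℕ → Set Z} (h : ∀ i, RR M (A i)) (N k : ℕ) :
    RR M (⋃ j ≤ k, A (N + j)) := by
  induction k with
  | zero =>
    have : (⋃ j ≤ 0, A (N + j)) = A N := by
      ext c; simp
    rw [this]
    exact h N
  | succ k ih =>
    have : (⋃ j ≤ k + 1, A (N + j)) = (⋃ j ≤ k, A (N + j)) ∪ A (N + (k + 1)) := by
      ext c
      simp only [mem_iUnion, mem_union, exists_prop]
      constructor
      · rintro ⟨j, hj, hc⟩
        rcases Nat.lt_or_ge k j with h1 | h1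
        · have : j = k + 1 := by omega
          subst this
          exact Or.inr hc
        · exact Or.inl ⟨j, h1, hc⟩
      · rintro (⟨j, hj, hc⟩ | hc)
        · exact ⟨j, by omega, hc⟩
        · exact ⟨k + 1, le_rfl, hc⟩
    rw [this]
    exact ih.union (h _)

lemma RR.iUnion {M : ℕ} {A : ℕ → Set Z} (h : ∀ i, RR M (A i)) : RR (M + 1) (⋃ i, A i) := by
  refine ⟨fun k => ⋃ j ≤ k, A (0 + j), fun k => RR.biUnion h 0 k, fun c => ?_⟩
  constructor
  · intro hc
    obtain ⟨i, hi⟩ := mem_iUnion.1 hc
    refine (Set.Ici_infinite i).mono fun k hk => ?_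
    simp only [mem_ofPred_eq, mem_iUnion, exists_prop]
    exact ⟨i, hk, by rwa [zero_add]⟩
  · intro hc
    obtain ⟨k, hk⟩ := hc.nonempty
    simp only [mem_ofPred_eq, mem_iUnion, exists_prop] at hk
    obtain ⟨j, _, hj⟩ := hk
    exact mem_iUnion.2 ⟨0 + j, hj⟩

lemma RR.compl {M : ℕ} {A : Set Z} (h : RR M A) : RR (2 * M) Aᶜ := by
  induction M generalizing A with
  | zero => exact IsClopen.compl h
  | succ M ih =>
    obtain ⟨B, hB, hA⟩ := h
    have h1 : ∀ N, RR (2 * M + 1) {c | ∀ i ≥ N, c ∉ B i} := by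
      intro N
      refine ⟨fun k => (⋃ j ≤ k, B (N + j))ᶜ, fun k => ih (RR.biUnion hB N k), fun c => ?_⟩
      constructor
      · intro hc
        have : {k | c ∈ (⋃ j ≤ k, B (N + j))ᶜ} = univ := by
          ext k
          simp only [mem_ofPred_eq, mem_univ, iff_true, mem_compl_iff, mem_iUnion, exists_prop,
            not_exists, not_and]
          intro j _
          exact hc _ (by omega)
        rw [this]
        exact infinite_univ
      · intro hc i hi hiB
        obtain ⟨k, hk, hk2⟩ := hc.exists_gt i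
        simp only [mem_ofPred_eq, mem_compl_iff, mem_iUnion, exists_prop,
            not_exists, not_and] at hk
        refine hk (i - N) (by omega) ?_
        rwa [Nat.add_sub_cancel' hi]
    have h2 : Aᶜ = ⋃ N, {c | ∀ i ≥ N, c ∉ B i} := by
      ext c
      rw [mem_compl_iff, hA, not_infinite, mem_iUnion]
      constructor
      · intro hf
        obtain ⟨N, hN⟩ := hf.bddAbove
        refine ⟨N + 1, fun i hi hiB => ?_⟩
        have : i ≤ N := hN hiB
        omega
      · rintro ⟨N, hN⟩
        refine (Set.finite_Iio N).subset fun i hi => ?_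
        by_contra hcon
        exact hN i (not_lt.1 hcon) hi
    rw [h2]
    exact RR.iUnion h1

end RR

/-! ### Universal sets -/

/-- The clopen subset of Cantor space which depends on the first `k` coordinates. -/
def Cyl (l : List Bool) : Set (ℕ → Bool) := {c | ∀ (j : ℕ) (h : j < l.length), c j = l[j]}

lemma isClopen_cyl (l : List Bool) : IsClopen (Cyl l) := by
  have h1 : Cyl l = ⋂ (j : Fin l.length), {c | c j = l[j]} := by
    ext c
    simp only [Cyl, mem_iInter, mem_ofPred_eq]
    exact ⟨fun h j => h j.1 j.2, fun h j hj => h ⟨j, hj⟩⟩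
  rw [h1]
  refine isClopen_iInter_of_finite fun j => ?_
  exact (isClopen_discrete ({l[j]} : Set Bool)).preimage (continuous_apply _)

lemma exists_cyl {A : Set (ℕ → Bool)} (hA : IsOpen A) {c : ℕ → Bool} (hc : c ∈ A) :
    ∃ l : List Bool, c ∈ Cyl l ∧ Cyl l ⊆ A := by
  obtain ⟨I, u, h1, h2⟩ := isOpen_pi_iff.1 hA c hc
  obtain ⟨n, hn⟩ := I.exists_nat_subset_range
  refine ⟨List.ofFn (fun i : Fin n => c i), ?_, ?_⟩
  · intro j hj
    simp
  · intro c' hc'
    apply h2
    intro i hi
    have hi' : i < n := Finset.mem_range.1 (hn hi)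
    have h3 := hc' i (by simpa using hi')
    simp only [List.getElem_ofFn] at h3
    rw [h3]
    exact (h1 i hi).2

/-- The universal sets. -/
def WW : ℕ → (ℕ → Bool) → Set (ℕ → Bool)
  | 0, a => {c | ∃ l : List Bool, a (Encodable.encode l) = true ∧ c ∈ Cyl l}
  | m + 1, a => ⋃ k, (WW m (fun j => a (Nat.pair k j)))ᶜ

lemma WW.exists_succ {m : ℕ} {B : ℕ → Set (ℕ → Bool)} (h : ∀ k, ∃ a, (B k)ᶜ = WW m a) :
    ∃ a, (⋃ k, B k) = WW (m + 1) a := by
  choose a ha using h
  refine ⟨fun n => a n.unpair.1 n.unpair.2, ?_⟩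
  show (⋃ k, B k) = ⋃ k, (WW m (fun j => a (Nat.pair k j).unpair.1 (Nat.pair k j).unpair.2))ᶜ
  congr 1
  funext k
  simp only [Nat.unpair_pair]
  have : (fun j => a k j) = a k := rfl
  rw [this, ← ha k, compl_compl]

lemma WW.exists_open {A : Set (ℕ → Bool)} (hA : IsOpen A) : ∃ a, A = WW 0 a := by
  classical
  refine ⟨fun n => decide (∃ l : List Bool, Encodable.encode l = n ∧ Cyl l ⊆ A), ?_⟩
  ext c
  constructor
  · intro hc
    obtain ⟨l, h1, h2⟩ := exists_cyl hA hc
    exact ⟨l, by simpa using h2, h1⟩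
  · rintro ⟨l, h1, h2⟩
    have h3 : Cyl l ⊆ A := by simpa using h1
    exact h3 h2

lemma WW.isOpen (a : ℕ → Bool) : IsOpen (WW 0 a) := by
  have : WW 0 a = ⋃ l : List Bool, {c | a (Encodable.encode l) = true ∧ c ∈ Cyl l} := by
    ext c
    simp only [mem_iUnion]
    rfl
  rw [this]
  refine isOpen_iUnion fun l => ?_
  by_cases h : a (Encodable.encode l) = true
  · have : {c | a (Encodable.encode l) = true ∧ c ∈ Cyl l} = Cyl l := by
      ext c; simp [h]
    rw [this]
    exact (isClopen_cyl l).isOpen
  · have : {c | a (Encodable.encode l) = true ∧ c ∈ Cyl l} = ∅ := by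
      ext c; simp [h]
    rw [this]
    exact isOpen_empty

lemma WW.mono (m : ℕ) (a : ℕ → Bool) : ∃ a', WW m a = WW (m + 1) a' := by
  induction m generalizing a with
  | zero =>
    classical
    have h1 : WW 0 a = ⋃ k : ℕ, {c | ∃ l : List Bool, Encodable.encode l = k ∧
        a (Encodable.encode l) = true ∧ c ∈ Cyl l} := by
      ext c
      simp only [mem_iUnion]
      constructor
      · rintro ⟨l, h1, h2⟩
        exact ⟨_, l, rfl, h1, h2⟩
      · rintro ⟨_, l, _, h1, h2⟩
        exact ⟨l, h1, h2⟩
    rw [h1]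
    refine WW.exists_succ fun k => WW.exists_open ?_
    rw [isOpen_compl_iff]
    by_cases h : ∃ l : List Bool, Encodable.encode l = k ∧ a (Encodable.encode l) = true
    · obtain ⟨l, h2, h3⟩ := h
      have : {c | ∃ l : List Bool, Encodable.encode l = k ∧
        a (Encodable.encode l) = true ∧ c ∈ Cyl l} = Cyl l := by
        ext c
        constructor
        · rintro ⟨l', h4, h5, h6⟩
          have : l' = l := Encodable.encode_injective (h4.trans h2.symm)
          rwa [this] at h6
        · intro h4
          exact ⟨l, h2, h3, h4⟩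
      rw [this]
      exact (isClopen_cyl l).isClosed
    · have : {c | ∃ l : List Bool, Encodable.encode l = k ∧
        a (Encodable.encode l) = true ∧ c ∈ Cyl l} = ∅ := by
        ext c
        simp only [mem_empty_iff_false, iff_false]
        rintro ⟨l', h4, h5, h6⟩
        exact h ⟨l', h4, h5⟩
      rw [this]
      exact isClosed_empty
  | succ m ih =>
    show ∃ a', (⋃ k, (WW m (fun j => a (Nat.pair k j)))ᶜ) = WW (m + 1 + 1) a'
    refine WW.exists_succ fun k => ?_
    rw [compl_compl]
    exact ih _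

lemma IsSigma.exists_WW {n : ℕ} {A : Set (ℕ → Bool)} (h : IsSigma n A) :
    ∀ m, n ≤ m + 1 → ∃ a, A = WW m a := by
  induction h with
  | isOpen A h =>
    intro m _
    induction m with
    | zero => exact WW.exists_open h
    | succ m ih =>
      obtain ⟨a, ha⟩ := ih (by omega)
      rw [ha]
      exact WW.mono m a
  | iUnion n m B hm h ih =>
    intro m' hm'
    cases m' with
    | zero =>
      have h1 := (h 0).one_le
      have h2 := hm 0
      omega
    | succ m' =>
      exact WW.exists_succ fun k => ih k m' (by have := hm k; omega)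

lemma WW.exists_RR (m : ℕ) : ∃ M, ∀ h : (ℕ → Bool) → (ℕ → Bool), Continuous h →
    RR M {c | c ∈ WW m (h c)} := by
  induction m with
  | zero =>
    refine ⟨1, fun h hh => ?_⟩
    have h1 : {c | c ∈ WW 0 (h c)} = ⋃ k : ℕ, {c | ∃ l : List Bool, Encodable.encode l = k ∧
        h c (Encodable.encode l) = true ∧ c ∈ Cyl l} := by
      ext c
      simp only [mem_iUnion]
      constructor
      · rintro ⟨l, h1, h2⟩
        exact ⟨_, l, rfl, h1, h2⟩
      · rintro ⟨_, l, _, h1, h2⟩
        exact ⟨l, h1, h2⟩
    rw [h1]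
    refine RR.iUnion (M := 0) fun k => ?_
    show IsClopen _
    by_cases hk : ∃ l : List Bool, Encodable.encode l = k
    · obtain ⟨l, rfl⟩ := hk
      have : {c | ∃ l' : List Bool, Encodable.encode l' = Encodable.encode l ∧
        h c (Encodable.encode l') = true ∧ c ∈ Cyl l'} =
          {c | h c (Encodable.encode l) = true} ∩ Cyl l := by
        ext c
        constructor
        · rintro ⟨l', h4, h5, h6⟩
          have : l' = l := Encodable.encode_injective h4
          rw [this] at h5 h6
          exact ⟨h5, h6⟩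
        · rintro ⟨h4, h5⟩
          exact ⟨l, rfl, h4, h5⟩
      rw [this]
      refine IsClopen.inter ?_ (isClopen_cyl l)
      exact (isClopen_discrete ({true} : Set Bool)).preimage ((continuous_apply _).comp hh)
    · have : {c | ∃ l : List Bool, Encodable.encode l = k ∧
        h c (Encodable.encode l) = true ∧ c ∈ Cyl l} = ∅ := by
        ext c
        simp only [mem_empty_iff_false, iff_false]
        rintro ⟨l', h4, h5, h6⟩
        exact hk ⟨l', h4⟩
      rw [this]
      exact isClopen_empty
  | succ m ih =>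
    obtain ⟨M, hM⟩ := ih
    refine ⟨2 * M + 1, fun h hh => ?_⟩
    have h1 : {c | c ∈ WW (m + 1) (h c)} =
        ⋃ k, {c | c ∈ WW m (fun j => h c (Nat.pair k j))}ᶜ := by
      ext c
      simp only [mem_iUnion]
      show c ∈ (⋃ k, (WW m (fun j => h c (Nat.pair k j)))ᶜ) ↔ _
      simp only [mem_iUnion]
      rfl
    rw [h1]
    refine RR.iUnion fun k => (hM _ ?_).compl
    exact continuous_pi fun j => (continuous_apply _).comp hh

/-- For each `n` there is a set defined by the iterated quantifier the complement of which is not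
of class `𝚺⁰ₙ`. -/
theorem exists_RR_not_sigma (n : ℕ) : ∃ (M : ℕ) (A : Set (ℕ → Bool)), RR M A ∧ ¬ IsSigma n Aᶜ := by
  obtain ⟨M, hM⟩ := WW.exists_RR n
  refine ⟨M, _, hM id continuous_id, fun h => ?_⟩
  obtain ⟨a, ha⟩ := h.exists_WW n (by omega)
  have h1 : a ∈ {c | c ∈ WW n (id c)}ᶜ ↔ a ∈ WW n a := by rw [ha]
  have h2 : a ∈ {c | c ∈ WW n (id c)}ᶜ ↔ a ∉ WW n a := Iff.rfl
  tauto

end Pool.Agent.W5h44.Szlenk
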