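import Mathlib

/-!
# Finite Borel classes and the summable Szlenk index: definitions
-/

open Set

namespace Pool.Agent.W5h44.Szlenk

/-- The class `𝚺⁰ₙ` of subsets of a (metrizable) topological space, `n ≥ 1` a natural number:
`𝚺⁰₁` consists of the open sets and, for `n ≥ 2`, `𝚺⁰ₙ` consists of the unions of sequences of
sets each of which has its complement in `𝚺⁰ₘ` for some `m < n` (no set is in `𝚺⁰₀`). -/
inductive IsSigma {Z : Type} [TopologicalSpace Z] : ℕ → Set Z → Prop
  | isOpen (A : Set Z) (h : IsOpen A) : IsSigma 1 A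
  | iUnion (n : ℕ) (m : ℕ → ℕ) (B : ℕ → Set Z) (hm : ∀ k, m k < n)
      (h : ∀ k, IsSigma (m k) (B k)ᶜ) : IsSigma n (⋃ k, B k)

/-- The Szlenk derivation: `s_ε(K)` is the set `K` without the weak* open sets `U` such that
`K ∩ U` has diameter less than `ε`. -/
def szDer {X : Type} [NormedAddCommGroup X] [NormedSpace ℝ X] (ε : ℝ)
    (K : Set (StrongDual ℝ X)) : Set (StrongDual ℝ X) :=
  {f | f ∈ K ∧ ∀ U : Set (WeakDual ℝ X), IsOpen U → StrongDual.toWeakDual f ∈ U →
    ε ≤ Metric.diam (K ∩ {g | StrongDual.toWeakDual g ∈ U})}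

/-- The summable Szlenk index. -/
def SummableSzlenk (X : Type) [NormedAddCommGroup X] [NormedSpace ℝ X] : Prop :=
  ∃ M : ℝ, ∀ l : List ℝ, (∀ ε ∈ l, 0 < ε) →
    (l.foldr szDer (Metric.closedBall (0 : StrongDual ℝ X) 1)).Nonempty → l.sum ≤ M

end Pool.Agent.W5h44.Szlenk
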