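import Pool.Agent.W5h44.Szlenk.Borel

/-!
# The trees of histories
-/

open Set

namespace Pool.Agent.W5h44.Szlenk

/-- Histories. -/
abbrev Hist : Type := List (Finset (List ℕ))

/-- The code of a history. -/
def hcode (L : Hist) : ℕ := Denumerable.eqv Hist L

/-- The history with a given code. -/
def hist (n : ℕ) : Hist := (Denumerable.eqv Hist).symm n

/-- The announced nodes. -/
def ann : Hist → Finset (List ℕ)
  | [] => {[]}
  | S :: L => S ∪ ann L

/-- The validity of a history. -/
def Valid (M : ℕ) (b : List ℕ → Bool) : Hist → Prop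
  | [] => M = 0 → b [] = true
  | S :: L => Valid M b L ∧
      (∀ ν ∈ ann L, ν.length < M → ∃ i, hcode L < i ∧ ν ++ [i] ∈ S) ∧
      (∀ ν ∈ S, ν.length = M → b ν = true)

lemma ann_nil_mem (L : Hist) : [] ∈ ann L := by
  induction L with
  | nil => exact Finset.mem_singleton_self _
  | cons S L ih => exact Finset.mem_union_right _ ih

lemma ann_mono {L L' : Hist} (h : L <:+ L') : ann L ⊆ ann L' := by
  obtain ⟨R, rfl⟩ := h
  induction R with
  | nil => exact Finset.Subset.refl _
  | cons S R ih => exact ih.trans Finset.subset_union_right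

lemma Valid.suffix {M : ℕ} {b : List ℕ → Bool} {L L' : Hist} (h : L <:+ L')
    (hv : Valid M b L') : Valid M b L := by
  obtain ⟨R, rfl⟩ := h
  induction R with
  | nil => exact hv
  | cons S R ih => exact ih hv.1

lemma Valid.leaf {M : ℕ} {b : List ℕ → Bool} {L : Hist} (hv : Valid M b L) {ν : List ℕ}
    (hν : ν ∈ ann L) (hM : ν.length = M) : b ν = true := by
  induction L with
  | nil =>
    have h1 : ν = [] := Finset.mem_singleton.1 hν
    subst h1
    exact hv hM.symm
  | cons S L ih =>
    rcases Finset.mem_union.1 hν with h | h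
    · exact hv.2.2 ν h hM
    · exact ih hv.1 h

lemma isClopen_valid {Z : Type} [TopologicalSpace Z] {g : Z → List ℕ → Bool} (hg : Continuous g)
    (M : ℕ) (L : Hist) : IsClopen {c | Valid M (g c) L} := by
  have h1 : ∀ ν, IsClopen {c | g c ν = true} := fun ν =>
    (isClopen_discrete ({true} : Set Bool)).preimage ((continuous_apply ν).comp hg)
  have h2 : ∀ (p : Prop) (ν : List ℕ), IsClopen {c | p → g c ν = true} := by
    intro p ν
    by_cases hp : p
    · simpa [hp] using h1 ν
    · simp only [hp, false_imp_iff]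
      exact isClopen_univ
  induction L with
  | nil => exact h2 _ _
  | cons S L ih =>
    have h3 : {c | Valid M (g c) (S :: L)} = {c | Valid M (g c) L} ∩
        ({_c | ∀ ν ∈ ann L, ν.length < M → ∃ i, hcode L < i ∧ ν ++ [i] ∈ S} ∩
        ⋂ ν ∈ S, {c | ν.length = M → g c ν = true}) := by
      ext c
      simp only [mem_inter_iff, mem_iInter]
      rfl
    rw [h3]
    refine ih.inter (IsClopen.inter ?_ ?_)
    · by_cases hp : ∀ ν ∈ ann L, ν.length < M → ∃ i, hcode L < i ∧ ν ++ [i] ∈ S
      · have : {_c : Z | ∀ ν ∈ ann L, ν.length < M → ∃ i, hcode L < i ∧ ν ++ [i] ∈ S} = univ :=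
          eq_univ_of_forall fun _ => hp
        rw [this]
        exact isClopen_univ
      · have : {_c : Z | ∀ ν ∈ ann L, ν.length < M → ∃ i, hcode L < i ∧ ν ++ [i] ∈ S} = ∅ :=
          eq_empty_of_forall_notMem fun _ h => hp h
        rw [this]
        exact isClopen_empty
    · exact isClopen_biInter_finset fun ν _ => h2 _ _

/-! ### Coding by natural numbers -/

lemma hist_encode (L : Hist) : hist (hcode L) = L := Equiv.symm_apply_apply _ _

lemma encode_hist (n : ℕ) : hcode (hist n) = n := Equiv.apply_symm_apply _ _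

/-- Proper initial segments. -/
def anc (i j : ℕ) : Prop := hist i <:+ hist j ∧ i ≠ j

lemma hist_inj {i j : ℕ} (h : hist i = hist j) : i = j := by
  rw [← encode_hist i, h, encode_hist]

lemma anc_irrefl (i : ℕ) : ¬ anc i i := fun h => h.2 rfl

lemma anc_trans {i j k : ℕ} (h1 : anc i j) (h2 : anc j k) : anc i k := by
  refine ⟨h1.1.trans h2.1, ?_⟩
  rintro rfl
  exact h1.2 (hist_inj (h1.1.eq_of_length (le_antisymm h1.1.length_le h2.1.length_le)))

lemma anc_comp {i j k : ℕ} (h1 : anc i k) (h2 : anc j k) : i = j ∨ anc i j ∨ anc j i := by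
  by_cases hij : i = j
  · exact Or.inl hij
  · right
    rcases List.suffix_or_suffix_of_suffix h1.1 h2.1 with h | h
    · exact Or.inl ⟨h, hij⟩
    · exact Or.inr ⟨h, fun h' => hij h'.symm⟩

lemma anc_finite (j : ℕ) : {i | anc i j}.Finite := by
  refine ((hist j).tails.toFinset.finite_toSet.preimage
    (f := hist) (fun _ _ _ _ h => hist_inj h)).subset ?_
  intro i hi
  have h1 : anc i j := hi
  simp only [mem_preimage, Finset.mem_coe, List.mem_toFinset, List.mem_tails]
  exact h1.1

/-- The derivative. -/
def Dr (r : ℕ → ℕ → Prop) (S : Set ℕ) : Set ℕ := {m | m ∈ S ∧ ∀ N, ∃ n ∈ S, N ≤ n ∧ r m n}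

lemma Dr_subset (r : ℕ → ℕ → Prop) (S : Set ℕ) : Dr r S ⊆ S := fun _ h => h.1

/-- The tree. -/
def Tree (M : ℕ) (b : List ℕ → Bool) : Set ℕ := {n | Valid M b (hist n)}

lemma iterate_Dr_subset (r : ℕ → ℕ → Prop) (n : ℕ) (S : Set ℕ) : (Dr r)^[n] S ⊆ S := by
  induction n with
  | zero => exact Subset.rfl
  | succ n ih =>
    rw [Function.iterate_succ_apply']
    exact (Dr_subset _ _).trans ih

/-- The infinite rank. -/
theorem mem_iterate_of_TT {M : ℕ} {b : List ℕ → Bool} (n : ℕ) :
    ∀ (L : Hist), Valid M b L →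
    (∀ ν ∈ ann L, ∀ j, ν.length + j = M → TT j (fun ν' => b (ν ++ ν'))) →
    hcode L ∈ (Dr anc)^[n] (Tree M b) := by
  classical
  induction n with
  | zero =>
    intro L hL _
    show Valid M b (hist (hcode L))
    rwa [hist_encode]
  | succ n ih =>
    intro L hL hT
    rw [Function.iterate_succ_apply']
    refine ⟨ih L hL hT, fun N => ?_⟩
    -- the choice of the children
    have h1 : ∀ ν : List ℕ, ∃ i, ν ∈ ann L → ν.length < M → hcode L < i ∧
        ∀ j, (ν ++ [i]).length + j = M → TT j (fun ν' => b ((ν ++ [i]) ++ ν')) := by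
      intro ν
      by_cases hν : ν ∈ ann L ∧ ν.length < M
      · obtain ⟨h2, h3⟩ := hν
        have h4 := hT ν h2 (M - ν.length - 1 + 1) (by omega)
        have h5 : {i : ℕ | TT (M - ν.length - 1) (fun ν' => b (ν ++ i :: ν'))}.Infinite := h4
        obtain ⟨i, hi, hi2⟩ := h5.exists_gt (hcode L)
        refine ⟨i, fun _ _ => ⟨hi2, fun j hj => ?_⟩⟩
        have h6 : j = M - ν.length - 1 := by
          rw [List.length_append, List.length_singleton] at hj
          omega
        subst h6
        have h7 : (fun ν' => b ((ν ++ [i]) ++ ν')) = (fun ν' => b (ν ++ i :: ν')) := by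
          funext ν'
          simp
        rw [h7]
        exact hi
      · exact ⟨0, fun h h' => absurd ⟨h, h'⟩ hν⟩
    choose ch hch using h1
    let S0 : Finset (List ℕ) := ((ann L).filter (fun ν => ν.length < M)).image
      (fun ν => ν ++ [ch ν])
    let S : ℕ → Finset (List ℕ) := fun x => insert (List.replicate (M + 1) x) S0
    have hS : ∀ x, ∀ ν ∈ S x, ∀ j, ν.length + j = M → TT j (fun ν' => b (ν ++ ν')) := by
      intro x ν hν j hj
      rcases Finset.mem_insert.1 hν with h | h
      · subst h
        rw [List.length_replicate] at hj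
        omega
      · obtain ⟨ν₀, h2, rfl⟩ := Finset.mem_image.1 h
        obtain ⟨h3, h4⟩ := Finset.mem_filter.1 h2
        exact (hch ν₀ h3 h4).2 j hj
    have hv : ∀ x, Valid M b (S x :: L) := by
      intro x
      refine ⟨hL, fun ν hν hM => ⟨ch ν, (hch ν hν hM).1, ?_⟩, fun ν hν hM => ?_⟩
      · refine Finset.mem_insert_of_mem (Finset.mem_image.2 ⟨ν, ?_, rfl⟩)
        exact Finset.mem_filter.2 ⟨hν, hM⟩
      · have h2 := hS x ν hν 0 (by simpa using hM)
        have h3 : b (ν ++ []) = true := h2
        rwa [List.append_nil] at h3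
    have hD : ∀ x, hcode (S x :: L) ∈ (Dr anc)^[n] (Tree M b) := by
      intro x
      apply ih _ (hv x)
      intro ν hν j hj
      rcases Finset.mem_union.1 hν with h | h
      · exact hS x ν h j hj
      · exact hT ν h j hj
    by_contra hcon
    push Not at hcon
    have h2 : ∀ x, hcode (S x :: L) < N := by
      intro x
      by_contra h3
      refine hcon _ (hD x) (not_lt.1 h3) ⟨?_, ?_⟩
      · rw [hist_encode, hist_encode]
        exact List.suffix_cons _ _
      · intro h4
        have h5 := (Denumerable.eqv Hist).injective h4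
        have h6 := congrArg List.length h5
        simp at h6
    have h3 : ∀ x : ℕ, List.replicate (M + 1) x ∈
        (((Finset.range N).biUnion (fun k => ann (hist k)) : Finset (List ℕ)) :
          Set (List ℕ)) := by
      intro x
      refine Finset.mem_coe.2 (Finset.mem_biUnion.2 ⟨_, Finset.mem_range.2 (h2 x), ?_⟩)
      rw [hist_encode]
      exact Finset.mem_union_left _ (Finset.mem_insert_self _ _)
    refine Set.infinite_of_injective_forall_mem (f := fun x : ℕ => List.replicate (M + 1) x) ?_ h3
      (Finset.finite_toSet _)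
    intro x y hxy
    have h4 : List.replicate (M + 1) x = List.replicate (M + 1) y := hxy
    rw [List.replicate_succ, List.replicate_succ] at h4
    exact (List.cons.inj h4).1

/-- The finite rank. -/
theorem false_of_not_TT {M : ℕ} {b : List ℕ → Bool} (j : ℕ) :
    ∀ (m : ℕ) (ν : List ℕ), ν ∈ ann (hist m) → ν.length + j = M →
    ¬ TT j (fun ν' => b (ν ++ ν')) → m ∉ (Dr anc)^[2 * j] (Tree M b) := by
  induction j with
  | zero =>
    intro m ν hν hM hT hm
    apply hT
    show b (ν ++ []) = true
    rw [List.append_nil]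
    have h1 : Valid M b (hist m) := hm
    exact h1.leaf hν (by simpa using hM)
  | succ j ih =>
    intro m ν hν hM hT hm
    have h0 : (Dr anc)^[2 * (j + 1)] (Tree M b) =
        Dr anc (Dr anc ((Dr anc)^[2 * j] (Tree M b))) := by
      rw [show 2 * (j + 1) = (2 * j + 1) + 1 by ring, Function.iterate_succ_apply',
        Function.iterate_succ_apply']
    rw [h0] at hm
    have h1 : ¬ {i : ℕ | TT j (fun ν' => b (ν ++ i :: ν'))}.Infinite := hT
    obtain ⟨m₀, hm₀⟩ := (not_infinite.1 h1).bddAbove
    obtain ⟨m', hm', hm₀', hmm'⟩ := hm.2 m₀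
    obtain ⟨m'', hm'', _, hmm''⟩ := hm'.2 0
    obtain ⟨R, hR⟩ := hmm''.1
    -- the last new round
    have hRne : R ≠ [] := by
      rintro rfl
      exact hmm''.2 (hist_inj hR)
    obtain ⟨R', S, rfl⟩ := List.eq_nil_or_concat R |>.resolve_left hRne
    have hsuf : (S :: hist m') <:+ hist m'' := by
      refine ⟨R', ?_⟩
      rw [← hR]
      simp
    have hval : Valid M b (hist m'') := iterate_Dr_subset _ _ _ hm''
    have hval' : Valid M b (S :: hist m') := hval.suffix hsuf
    obtain ⟨i, hi, hiS⟩ := hval'.2.1 ν (ann_mono hmm'.1 hν) (by omega)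
    rw [encode_hist] at hi
    refine ih m'' (ν ++ [i]) ?_ ?_ ?_ hm''
    · exact ann_mono hsuf (Finset.mem_union_left _ hiS)
    · rw [List.length_append, List.length_singleton]
      omega
    · intro hcon
      have h7 : (fun ν' => b ((ν ++ [i]) ++ ν')) = (fun ν' => b (ν ++ i :: ν')) := by
        funext ν'
        simp
      rw [h7] at hcon
      have := hm₀ (a := i) hcon
      omega

theorem tree_bad {M : ℕ} {b : List ℕ → Bool} (h : TT M b) (n : ℕ) :
    ∃ m, m ∈ (Dr anc)^[n] (Tree M b) := by
  refine ⟨_, mem_iterate_of_TT n [] ?_ ?_⟩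
  · show M = 0 → b [] = true
    rintro rfl
    exact h
  · intro ν hν j hj
    have h1 : ν = [] := Finset.mem_singleton.1 hν
    subst h1
    simp only [List.length_nil, zero_add] at hj
    subst hj
    exact h

theorem tree_good {M : ℕ} {b : List ℕ → Bool} (h : ¬ TT M b) :
    (Dr anc)^[2 * M] (Tree M b) = ∅ := by
  ext m
  simp only [mem_empty_iff_false, iff_false]
  exact false_of_not_TT M m [] (ann_nil_mem _) (by simp) h

end Pool.Agent.W5h44.Szlenk
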