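import Pool.Agent.R271.Coding
import Pool.Agent.W5h44.Szlenk.Hist

/-!
# The spaces and their Szlenk derivations
-/

open Filter Topology Metric Set
open Pool.Agent.R271.Coding

namespace Pool.Agent.W5h44.Szlenk

/-! ### The norms -/

/-- The finite cliques. -/
def Clq (c : ℕ → ℕ → Prop) (F : Finset ℕ) : Prop := ∀ i ∈ F, ∀ j ∈ F, c i j

/-- The sum of the absolute values of the coordinates. -/
noncomputable def sumOn (F : Finset ℕ) (v : V) : ℝ := ∑ i ∈ F, |(v i : ℝ)|

/-- The norm. -/
noncomputable def nrm (c : ℕ → ℕ → Prop) (v : V) : ℝ :=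
  sSup ((fun F => sumOn F v) '' {F | Clq c F ∧ F ⊆ v.support})

lemma Clq.mono {c : ℕ → ℕ → Prop} {F G : Finset ℕ} (h : Clq c F) (hG : G ⊆ F) : Clq c G :=
  fun i hi j hj => h i (hG hi) j (hG hj)

lemma nrm_finite (c : ℕ → ℕ → Prop) (v : V) :
    ((fun F => sumOn F v) '' {F | Clq c F ∧ F ⊆ v.support}).Finite := by
  refine Set.Finite.image _ ((v.support.powerset.finite_toSet).subset ?_)
  intro F hF
  exact Finset.mem_coe.2 (Finset.mem_powerset.2 hF.2)

lemma sumOn_nonneg (F : Finset ℕ) (v : V) : 0 ≤ sumOn F v := Finset.sum_nonneg fun _ _ => abs_nonneg _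

lemma exists_nrm (c : ℕ → ℕ → Prop) (v : V) : ∃ F, Clq c F ∧ F ⊆ v.support ∧ nrm c v = sumOn F v := by
  have h1 : ((fun F => sumOn F v) '' {F | Clq c F ∧ F ⊆ v.support}).Nonempty :=
    ⟨_, ∅, ⟨fun i hi => absurd hi (Finset.notMem_empty _), Finset.empty_subset _⟩, rfl⟩
  obtain ⟨F, hF, h2⟩ := h1.csSup_mem (nrm_finite c v)
  exact ⟨F, hF.1, hF.2, h2.symm⟩

lemma sumOn_eq_inter (F : Finset ℕ) (v : V) : sumOn F v = sumOn (F ∩ v.support) v := by
  classical
  refine (Finset.sum_subset Finset.inter_subset_left fun i hi hi' => ?_).symm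
  have : v i = 0 := by
    by_contra h
    exact hi' (Finset.mem_inter.2 ⟨hi, Finsupp.mem_support_iff.2 h⟩)
  simp [this]

lemma sumOn_le_nrm {c : ℕ → ℕ → Prop} {F : Finset ℕ} (hF : Clq c F) (v : V) :
    sumOn F v ≤ nrm c v := by
  rw [sumOn_eq_inter]
  exact le_csSup (nrm_finite c v).bddAbove
    ⟨_, ⟨hF.mono Finset.inter_subset_left, Finset.inter_subset_right⟩, rfl⟩

lemma nrm_le {c : ℕ → ℕ → Prop} {v : V} {r : ℝ} (h : ∀ F, Clq c F → sumOn F v ≤ r) :
    nrm c v ≤ r := by
  obtain ⟨F, hF, _, h1⟩ := exists_nrm c v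
  rw [h1]
  exact h F hF

lemma sumOn_add_le (F : Finset ℕ) (u v : V) : sumOn F (u + v) ≤ sumOn F u + sumOn F v := by
  rw [sumOn, sumOn, sumOn, ← Finset.sum_add_distrib]
  refine Finset.sum_le_sum fun i _ => ?_
  rw [Finsupp.add_apply]
  push_cast
  exact abs_add_le _ _

lemma sumOn_smul (F : Finset ℕ) (q : ℚ) (v : V) : sumOn F (q • v) = |(q : ℝ)| * sumOn F v := by
  rw [sumOn, sumOn, Finset.mul_sum]
  refine Finset.sum_congr rfl fun i _ => ?_
  rw [Finsupp.smul_apply, smul_eq_mul]
  push_cast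
  exact abs_mul _ _

lemma isPN_nrm (c : ℕ → ℕ → Prop) : IsPN (nrm c) where
  nonneg v := (sumOn_nonneg ∅ v).trans
    (sumOn_le_nrm (fun i hi => absurd hi (Finset.notMem_empty _)) v)
  add_le u v := nrm_le fun F hF =>
    (sumOn_add_le F u v).trans (add_le_add (sumOn_le_nrm hF u) (sumOn_le_nrm hF v))
  smul q v := by
    apply le_antisymm
    · refine nrm_le fun F hF => ?_
      rw [sumOn_smul]
      exact mul_le_mul_of_nonneg_left (sumOn_le_nrm hF v) (abs_nonneg _)
    · obtain ⟨F, hF, _, h1⟩ := exists_nrm c v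
      rw [h1, ← sumOn_smul]
      exact sumOn_le_nrm hF _

lemma abs_le_nrm {c : ℕ → ℕ → Prop} (hc : ∀ i, c i i) (v : V) (i : ℕ) : |(v i : ℝ)| ≤ nrm c v := by
  have h1 : Clq c {i} := by
    intro j hj k hk
    rw [Finset.mem_singleton.1 hj, Finset.mem_singleton.1 hk]
    exact hc i
  have h2 := sumOn_le_nrm h1 v
  rwa [sumOn, Finset.sum_singleton] at h2

lemma abs_sum_le (F : Finset ℕ) (v : V) : |∑ i ∈ F, (v i : ℝ)| ≤ sumOn F v :=
  Finset.abs_sum_le_sum_abs _ _

/-! ### Functionals -/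

section

variable {X : Type} [NormedAddCommGroup X] [NormedSpace ℝ X] {μ : V → ℝ} {ι : V →+ X}

/-- A bound for the norm of a functional. -/
lemma norm_le_of_codes (hc : Codes X μ ι) {f : StrongDual ℝ X} {r : ℝ} (hr : 0 ≤ r)
    (h : ∀ v, μ v ≤ 1 → |f (ι v)| ≤ r) : ‖f‖ ≤ r := by
  have h1 : ∀ x : X, ‖x‖ < 1 → |f x| ≤ r := by
    intro x hx
    have hO : IsOpen {y : X | ‖y‖ < 1 ∧ ¬ |f y| ≤ r} := by
      have e1 : IsOpen {y : X | ‖y‖ < 1} := isOpen_lt continuous_norm continuous_const
      have e2 : IsOpen {y : X | r < |f y|} := isOpen_lt continuous_const f.continuous.abs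
      have e3 : {y : X | ‖y‖ < 1 ∧ ¬ |f y| ≤ r} = {y : X | ‖y‖ < 1} ∩ {y : X | r < |f y|} := by
        ext y
        simp [not_le]
      rw [e3]
      exact e1.inter e2
    by_contra hcon
    obtain ⟨_, hy, ⟨v, rfl⟩⟩ := hc.dense.inter_open_nonempty _ hO ⟨x, hx, hcon⟩
    apply hy.2
    apply h
    rw [← hc.norm]
    exact hy.1.le
  refine ContinuousLinearMap.opNorm_le_of_unit_norm hr fun x hx => ?_
  have h2 : ∀ t : ℝ, 0 < t → t < 1 → t * |f x| ≤ r := by
    intro t ht0 ht1
    have h3 := h1 (t • x) (by rw [norm_smul, hx, Real.norm_of_nonneg ht0.le, mul_one]; exact ht1)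
    rwa [map_smul, smul_eq_mul, abs_mul, abs_of_pos ht0] at h3
  rw [Real.norm_eq_abs]
  by_contra hcon
  push Not at hcon
  have h5 : 0 < |f x| := lt_of_le_of_lt hr hcon
  have h4 := h2 ((r / |f x| + 1) / 2) (by positivity) (by
    have : r / |f x| < 1 := (div_lt_one h5).2 hcon
    linarith)
  have h6 : (r / |f x| + 1) / 2 * |f x| = (r + |f x|) / 2 := by
    field_simp
  rw [h6] at h4
  linarith

/-- The values of a functional at rational multiples. -/
lemma apply_smul (f : StrongDual ℝ X) (ι : V →+ X) (q : ℚ) (v : V) :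
    f (ι (q • v)) = q * f (ι v) := by
  let φ : V →+ ℝ := (f.toLinearMap.toAddMonoidHom).comp ι
  have h1 : φ (q • v) = q • φ v := map_rat_smul φ q v
  rw [Rat.smul_def] at h1
  exact h1

lemma apply_eq_sum (f : StrongDual ℝ X) (ι : V →+ X) (v : V) {A : Finset ℕ} (hA : v.support ⊆ A) :
    f (ι v) = ∑ i ∈ A, (v i : ℝ) * f (ι (Finsupp.single i 1)) := by
  have h1 : v = ∑ i ∈ A, v i • (Finsupp.single i (1 : ℚ)) := by
    conv_lhs => rw [← Finsupp.sum_single v]
    rw [Finsupp.sum_of_support_subset _ hA _ (by simp)]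
    apply Finset.sum_congr rfl
    intro i _
    rw [Finsupp.smul_single, smul_eq_mul, mul_one]
  conv_lhs => rw [h1]
  rw [map_sum, map_sum]
  exact Finset.sum_congr rfl fun i _ => apply_smul f ι _ _

lemma exists_coord {c : ℕ → ℕ → Prop} (hr : ∀ i, c i i) (hc : Codes X (nrm c) ι) :
    ∃ E : ℕ → StrongDual ℝ X, (∀ i, ‖E i‖ ≤ 1) ∧ ∀ i v, E i (ι v) = (v i : ℝ) := by
  have h1 : ∀ i, ∃ f : StrongDual ℝ X, ‖f‖ ≤ 1 ∧ ∀ v, f (ι v) = (v i : ℝ) := fun i =>
    exists_dual hc ⟨fun u v => by rw [Finsupp.add_apply]; push_cast; rfl,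
      fun v => abs_le_nrm hr v i⟩
  choose E hE1 hE2 using h1
  exact ⟨E, hE1, hE2⟩

lemma nrm_single {c : ℕ → ℕ → Prop} (hr : ∀ i, c i i) (i : ℕ) :
    nrm c (Finsupp.single i 1) = 1 := by
  apply le_antisymm
  · obtain ⟨F, hF, hF2, h1⟩ := exists_nrm c (Finsupp.single i 1)
    rw [h1]
    have h2 : F ⊆ {i} := hF2.trans Finsupp.support_single_subset
    calc sumOn F (Finsupp.single i 1) ≤ sumOn {i} (Finsupp.single i 1) :=
          Finset.sum_le_sum_of_subset_of_nonneg h2 fun _ _ _ => abs_nonneg _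
      _ = 1 := by
        rw [sumOn, Finset.sum_singleton, Finsupp.single_eq_same]
        simp
  · have := abs_le_nrm hr (Finsupp.single i 1) i
    rwa [Finsupp.single_eq_same, Rat.cast_one, abs_one] at this

theorem not_finiteDimensional {c : ℕ → ℕ → Prop} (hr : ∀ i, c i i) (hc : Codes X (nrm c) ι) :
    ¬ FiniteDimensional ℝ X := by
  intro hfd
  obtain ⟨E, hE1, hE2⟩ := exists_coord hr hc
  have hli : LinearIndependent ℝ (fun i : ℕ => ι (Finsupp.single i 1)) := by
    rw [linearIndependent_iff']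
    intro s g hg i hi
    have h1 := congrArg (E i) hg
    rw [map_sum, map_zero] at h1
    simp only [map_smul, smul_eq_mul, hE2] at h1
    rw [Finset.sum_eq_single i] at h1
    · simpa using h1
    · intro j _ hj
      rw [Finsupp.single_eq_of_ne (by exact fun h => hj h.symm)]
      simp
    · intro h
      exact absurd hi h
  have h2 : Finite ℕ := hli.finite
  exact not_finite ℕ

/-! ### The good case -/

lemma real_aux {n η : ℝ} (hn : 0 ≤ n) (hη : 0 ≤ η) : n * (2 * (η / (2 * (n + 1)))) ≤ η := by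
  have h6 : n * (2 * (η / (2 * (n + 1)))) = η * (n / (n + 1)) := by
    field_simp
  rw [h6]
  have h7 : n / (n + 1) ≤ 1 := by
    rw [div_le_one (by positivity)]
    linarith
  nlinarith

/-- The main estimate. -/
lemma szDer_step {c c' : ℕ → ℕ → Prop} (hr' : ∀ i, c' i i) (hc : Codes X (nrm c) ι)
    (hle : ∀ v, nrm c' v ≤ nrm c v)
    (hcl : ∀ B : Finset ℕ, ∃ A : Finset ℕ, B ⊆ A ∧ ∀ i ∈ A, ∀ j, c' i j → j ∈ A)
    {K : Set (StrongDual ℝ X)} {r ε : ℝ}
    (hK : ∀ f ∈ K, ∀ v, nrm c' v ≤ 1 → f (ι v) ≤ r) :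
    ∀ f ∈ szDer ε K, ∀ v, nrm c' v ≤ 1 → f (ι v) ≤ r - ε / 2 := by
  classical
  rintro f ⟨hfK, hf⟩ v hv
  by_contra hcon
  push Not at hcon
  set η : ℝ := (f (ι v) - (r - ε / 2)) / 2 with hη
  have hη0 : 0 < η := by rw [hη]; linarith
  obtain ⟨A, hA1, hA2⟩ := hcl v.support
  set δ : ℝ := η / (2 * (A.card + 1)) with hδ
  have hδ0 : 0 < δ := by positivity
  let U : Set (WeakDual ℝ X) := {g | r - ε / 2 + η < g (ι v)} ∩
    ⋂ i ∈ A, {g | |g (ι (Finsupp.single i 1)) - f (ι (Finsupp.single i 1))| < δ}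
  have hU : IsOpen U := by
    refine IsOpen.inter (isOpen_lt continuous_const (WeakDual.eval_continuous _)) ?_
    refine isOpen_biInter_finset fun i _ => ?_
    exact isOpen_lt (((WeakDual.eval_continuous _).sub continuous_const).abs) continuous_const
  have hfU : StrongDual.toWeakDual f ∈ U := by
    refine ⟨?_, ?_⟩
    · show r - ε / 2 + η < f (ι v)
      rw [hη]
      linarith
    · simp only [mem_iInter]
      intro i _
      show |f (ι (Finsupp.single i 1)) - f (ι (Finsupp.single i 1))| < δ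
      rw [sub_self, abs_zero]
      exact hδ0
  -- the estimate on the complement of `A`
  have key : ∀ g ∈ K ∩ {g | StrongDual.toWeakDual g ∈ U}, ∀ w : V, nrm c' w ≤ 1 →
      (∀ i ∈ A, w i = 0) → g (ι w) ≤ ε / 2 - η := by
    rintro g ⟨hgK, hgU⟩ w hw hwA
    have h1 : nrm c' (v + w) ≤ 1 := by
      refine nrm_le fun F hF => ?_
      by_cases hFA : ∃ i ∈ F, i ∈ A
      · obtain ⟨i, hi, hiA⟩ := hFA
        have h2 : sumOn F (v + w) = sumOn F v := by
          refine Finset.sum_congr rfl fun j hj => ?_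
          rw [Finsupp.add_apply, hwA j (hA2 i hiA j (hF i hi j hj)), add_zero]
        rw [h2]
        exact (sumOn_le_nrm hF v).trans hv
      · push Not at hFA
        have h2 : sumOn F (v + w) = sumOn F w := by
          refine Finset.sum_congr rfl fun j hj => ?_
          have h3 : v j = 0 := by
            by_contra h4
            exact hFA j hj (hA1 (Finsupp.mem_support_iff.2 h4))
          rw [Finsupp.add_apply, h3, zero_add]
        rw [h2]
        exact (sumOn_le_nrm hF w).trans hw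
    have h2 := hK g hgK _ h1
    rw [map_add, map_add] at h2
    have h3 : r - ε / 2 + η < g (ι v) := hgU.1
    linarith
  have hη2 : 0 ≤ ε / 2 - η := by
    have := key f ⟨hfK, hfU⟩ 0 (by rw [(isPN_nrm c').zero]; exact zero_le_one)
      (fun i _ => rfl)
    rwa [map_zero, map_zero] at this
  have hdist : ∀ g ∈ K ∩ {g | StrongDual.toWeakDual g ∈ U},
      ∀ h ∈ K ∩ {g | StrongDual.toWeakDual g ∈ U}, dist g h ≤ ε - η := by
    intro g hg h hh
    rw [dist_eq_norm]
    have h1 : ∀ g ∈ K ∩ {g | StrongDual.toWeakDual g ∈ U},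
        ∀ h ∈ K ∩ {g | StrongDual.toWeakDual g ∈ U}, ∀ u : V, nrm c u ≤ 1 →
        (g - h) (ι u) ≤ ε - η := by
      intro g hg h hh u hu
      have hu' : nrm c' u ≤ 1 := (hle u).trans hu
      set a : V := u.filter (fun i => i ∈ A) with ha
      set w : V := u.filter (fun i => ¬ i ∈ A) with hw
      have huaw : u = a + w := (Finsupp.filter_add_filter_not u _).symm
      have hwA : ∀ i ∈ A, w i = 0 := fun i hi => Finsupp.filter_apply_neg _ _ (by simpa using hi)
      have hw1 : nrm c' w ≤ 1 := by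
        refine nrm_le fun F hF => ?_
        refine le_trans ?_ ((sumOn_le_nrm hF u).trans hu')
        refine Finset.sum_le_sum fun i _ => ?_
        by_cases hi : i ∈ A
        · rw [hwA i hi, Rat.cast_zero, abs_zero]
          exact abs_nonneg _
        · rw [hw, Finsupp.filter_apply_pos (fun i => ¬ i ∈ A) _ hi]
      have hw2 : nrm c' (-w) ≤ 1 := by rwa [(isPN_nrm c').neg]
      have h2 := key g hg w hw1 hwA
      have h3 := key h hh (-w) hw2 (fun i hi => by rw [Finsupp.neg_apply, hwA i hi, neg_zero])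
      rw [map_neg, map_neg] at h3
      have h4 : (g - h) (ι a) ≤ η := by
        have hsup : a.support ⊆ A := by
          intro i hi
          by_contra h5
          exact (Finsupp.mem_support_iff.1 hi) (Finsupp.filter_apply_neg _ _ h5)
        rw [apply_eq_sum (g - h) ι a hsup]
        calc ∑ i ∈ A, (a i : ℝ) * (g - h) (ι (Finsupp.single i 1)) ≤ ∑ i ∈ A, 2 * δ := by
              refine Finset.sum_le_sum fun i hi => ?_
              have h5 : |(a i : ℝ)| ≤ 1 := by
                rw [ha, Finsupp.filter_apply_pos _ _ hi]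
                exact (abs_le_nrm hr' u i).trans hu'
              have h6 : |g (ι (Finsupp.single i 1)) - f (ι (Finsupp.single i 1))| < δ := by
                have := hg.2.2
                simp only [mem_iInter] at this
                exact this i hi
              have h7 : |h (ι (Finsupp.single i 1)) - f (ι (Finsupp.single i 1))| < δ := by
                have := hh.2.2
                simp only [mem_iInter] at this
                exact this i hi
              have h8 : |(g - h) (ι (Finsupp.single i 1))| ≤ 2 * δ := by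
                have h9 : (g - h) (ι (Finsupp.single i 1)) =
                  (g (ι (Finsupp.single i 1)) - f (ι (Finsupp.single i 1))) -
                  (h (ι (Finsupp.single i 1)) - f (ι (Finsupp.single i 1))) := by
                  rw [sub_apply]; ring
                rw [h9]
                refine (abs_sub _ _).trans ?_
                linarith
              refine (le_abs_self _).trans ?_
              rw [abs_mul]
              calc |(a i : ℝ)| * |(g - h) (ι (Finsupp.single i 1))| ≤ 1 * (2 * δ) :=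
                    mul_le_mul h5 h8 (abs_nonneg _) zero_le_one
                _ = 2 * δ := one_mul _
          _ = A.card * (2 * δ) := by rw [Finset.sum_const, nsmul_eq_mul]
          _ ≤ η := real_aux (Nat.cast_nonneg _) hη0.le
      have h5 : (g - h) (ι u) = (g - h) (ι a) + (g (ι w) - h (ι w)) := by
        rw [huaw, map_add, map_add, sub_apply (f := g) (g := h) (x := ι w)]
      rw [h5]
      linarith
    refine norm_le_of_codes hc (by linarith) fun u hu => ?_
    rw [abs_le]
    constructor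
    · have := h1 h hh g hg u hu
      have h3 : (h - g) (ι u) = -((g - h) (ι u)) := by
        rw [sub_apply, sub_apply]; ring
      rw [h3] at this
      linarith
    · exact h1 g hg h hh u hu
  have h2 := hf U hU hfU
  have h3 : Metric.diam (K ∩ {g | StrongDual.toWeakDual g ∈ U}) ≤ ε - η :=
    Metric.diam_le_of_forall_dist_le (by linarith) hdist
  linarith

theorem summable_of_good {c c' : ℕ → ℕ → Prop} (hr' : ∀ i, c' i i) (hc : Codes X (nrm c) ι)
    (hle : ∀ v, nrm c' v ≤ nrm c v) {R : ℝ} (hR : 0 ≤ R) (hge : ∀ v, nrm c v ≤ R * nrm c' v)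
    (hcl : ∀ B : Finset ℕ, ∃ A : Finset ℕ, B ⊆ A ∧ ∀ i ∈ A, ∀ j, c' i j → j ∈ A) :
    SummableSzlenk X := by
  refine ⟨2 * R, fun l hl hne => ?_⟩
  have key : ∀ l : List ℝ, (∀ ε ∈ l, 0 < ε) →
      ∀ f ∈ l.foldr szDer (Metric.closedBall (0 : StrongDual ℝ X) 1), ∀ v, nrm c' v ≤ 1 →
        f (ι v) ≤ R - l.sum / 2 := by
    intro l
    induction l with
    | nil =>
      intro _ f hf v hv
      have h1 : ‖f‖ ≤ 1 := mem_closedBall_zero_iff.1 hf
      have h2 := (isFun_of_dual hc f h1).le v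
      have h3 := le_abs_self (f (ι v))
      have h4 := hge v
      have h5 : R * nrm c' v ≤ R * 1 := mul_le_mul_of_nonneg_left hv hR
      rw [List.sum_nil]
      linarith
    | cons ε l ih =>
      intro hl f hf v hv
      have h1 := szDer_step hr' hc hle hcl
        (ih fun ε' hε' => hl ε' (List.mem_cons_of_mem _ hε')) f hf v hv
      rw [List.sum_cons]
      linarith
  obtain ⟨f, hf⟩ := hne
  have h1 := key l hl f hf 0 (by rw [(isPN_nrm c').zero]; exact zero_le_one)
  rw [map_zero, map_zero] at h1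
  linarith

/-! ### The bad case -/

lemma szDer_subset (ε : ℝ) (K : Set (StrongDual ℝ X)) : szDer ε K ⊆ K := fun _ h => h.1

lemma foldr_subset (l : List ℝ) (K : Set (StrongDual ℝ X)) : l.foldr szDer K ⊆ K := by
  induction l with
  | nil => exact Subset.rfl
  | cons ε l ih => exact (szDer_subset _ _).trans ih

lemma tendsto_coord {c : ℕ → ℕ → Prop} (hc : Codes X (nrm c) ι)
    {E : ℕ → StrongDual ℝ X} (hE1 : ∀ i, ‖E i‖ ≤ 1) (hE2 : ∀ i v, E i (ι v) = (v i : ℝ))
    (f : StrongDual ℝ X) :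
    Tendsto (fun m => StrongDual.toWeakDual (f + E m)) atTop (𝓝 (StrongDual.toWeakDual f)) := by
  rw [tendsto_iff_forall_eval_tendsto_topDualPairing]
  intro x
  show Tendsto (fun m => (f + E m) x) atTop (𝓝 (f x))
  have h1 : Tendsto (fun m => E m x) atTop (𝓝 0) := by
    rw [Metric.tendsto_atTop]
    intro ε hε
    obtain ⟨v, hv⟩ := hc.dense.exists_dist_lt x hε
    obtain ⟨N, hN⟩ := v.support.bddAbove
    refine ⟨N + 1, fun m hm => ?_⟩
    rw [Real.dist_eq, sub_zero]
    have h2 : v m = 0 := by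
      by_contra h3
      have := hN (Finset.mem_coe.2 (Finsupp.mem_support_iff.2 h3))
      omega
    have h3 : E m x = E m (x - ι v) := by
      rw [map_sub, hE2, h2]
      simp
    rw [h3]
    calc |E m (x - ι v)| ≤ ‖E m‖ * ‖x - ι v‖ := (E m).le_opNorm _
      _ ≤ 1 * ‖x - ι v‖ := mul_le_mul_of_nonneg_right (hE1 m) (norm_nonneg _)
      _ < ε := by rwa [one_mul, ← dist_eq_norm]
  have h2 : Tendsto (fun m => f x + E m x) atTop (𝓝 (f x + 0)) := h1.const_add _
  rw [add_zero] at h2
  exact h2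

theorem not_summable_of_bad {r : ℕ → ℕ → Prop} (hirr : ∀ i, ¬ r i i)
    (htr : ∀ {i j k}, r i j → r j k → r i k) {T : Set ℕ} {c : ℕ → ℕ → Prop} (hc1 : ∀ i, c i i)
    (hc2 : ∀ i j, i ∈ T → j ∈ T → r i j → c i j ∧ c j i)
    (hT : ∀ n, ∃ m, m ∈ (Dr r)^[n] T) (hc : Codes X (nrm c) ι) : ¬ SummableSzlenk X := by
  classical
  obtain ⟨E, hE1, hE2⟩ := exists_coord hc1 hc
  have hEge : ∀ m, 1 ≤ ‖E m‖ := by
    intro m
    have h1 := (E m).le_opNorm (ι (Finsupp.single m 1))
    rw [hE2, hc.norm, nrm_single hc1, Finsupp.single_eq_same] at h1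
    simpa using h1
  have key : ∀ (n : ℕ) (F : Finset ℕ) (m : ℕ), Clq c F → m ∈ F → (∀ i ∈ F, i = m ∨ r i m) →
      (∀ i ∈ F, i ∈ T) → m ∈ (Dr r)^[n] T →
      (∑ i ∈ F, E i) ∈ (List.replicate n (1 : ℝ)).foldr szDer
        (Metric.closedBall (0 : StrongDual ℝ X) 1) := by
    intro n
    induction n with
    | zero =>
      intro F m hF _ _ _ _
      show _ ∈ Metric.closedBall (0 : StrongDual ℝ X) 1
      rw [mem_closedBall_zero_iff]
      refine norm_le_of_codes hc zero_le_one fun v hv => ?_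
      have h1 : (∑ i ∈ F, E i) (ι v) = ∑ i ∈ F, (v i : ℝ) := by
        rw [sum_apply]
        exact Finset.sum_congr rfl fun i _ => hE2 i v
      rw [h1]
      exact (abs_sum_le F v).trans ((sumOn_le_nrm hF v).trans hv)
    | succ n ih =>
      intro F m hF hmF hFm hFT hm
      rw [Function.iterate_succ_apply'] at hm
      rw [List.replicate_succ, List.foldr_cons]
      refine ⟨ih F m hF hmF hFm hFT hm.1, fun U hU hfU => ?_⟩
      have h1 := (tendsto_coord hc hE1 hE2 (∑ i ∈ F, E i)).eventually (hU.mem_nhds hfU)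
      obtain ⟨N, hN⟩ := eventually_atTop.1 h1
      obtain ⟨m', hm', hNm', hmm'⟩ := hm.2 N
      have hm'F : m' ∉ F := by
        intro h
        rcases hFm m' h with h2 | h2
        · rw [h2] at hmm'
          exact hirr m hmm'
        · exact hirr m (htr hmm' h2)
      have hrF : ∀ i ∈ F, r i m' := by
        intro i hi
        rcases hFm i hi with h2 | h2
        · rwa [h2]
        · exact htr h2 hmm'
      have hm'T : m' ∈ T := iterate_Dr_subset _ _ _ hm'
      have hF' : Clq c (insert m' F) := by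
        intro i hi j hj
        rcases Finset.mem_insert.1 hi with h2 | h2 <;> rcases Finset.mem_insert.1 hj with h3 | h3
        · rw [h2, h3]
          exact hc1 m'
        · rw [h2]
          exact (hc2 j m' (hFT j h3) hm'T (hrF j h3)).2
        · rw [h3]
          exact (hc2 i m' (hFT i h2) hm'T (hrF i h2)).1
        · exact hF i h2 j h3
      have h2 := ih (insert m' F) m' hF' (Finset.mem_insert_self _ _)
        (fun i hi => by
          rcases Finset.mem_insert.1 hi with h3 | h3
          · exact Or.inl h3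
          · exact Or.inr (hrF i h3))
        (fun i hi => by
          rcases Finset.mem_insert.1 hi with h3 | h3
          · rwa [h3]
          · exact hFT i h3) hm'
      have h3 : (∑ i ∈ insert m' F, E i) = (∑ i ∈ F, E i) + E m' := by
        rw [Finset.sum_insert hm'F, add_comm]
      rw [h3] at h2
      have h4 : dist (∑ i ∈ F, E i + E m') (∑ i ∈ F, E i) = ‖E m'‖ := by
        rw [dist_eq_norm, add_sub_cancel_left]
      refine (hEge m').trans ?_
      rw [← h4]
      refine Metric.dist_le_diam_of_mem ?_ ⟨h2, hN m' hNm'⟩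
        ⟨ih F m hF hmF hFm hFT hm.1, hfU⟩
      exact Metric.isBounded_closedBall.subset (inter_subset_left.trans (foldr_subset _ _))
  rintro ⟨M, hM⟩
  obtain ⟨n, hn⟩ := exists_nat_gt M
  obtain ⟨m, hm⟩ := hT n
  have h1 := key n {m} m (by
    intro i hi j hj
    rw [Finset.mem_singleton.1 hi, Finset.mem_singleton.1 hj]
    exact hc1 m) (Finset.mem_singleton_self m) (fun i hi => Or.inl (Finset.mem_singleton.1 hi))
    (fun i hi => by
      rw [Finset.mem_singleton.1 hi]
      exact iterate_Dr_subset _ _ _ hm) hm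
  have h2 := hM (List.replicate n 1) (fun ε hε => by
    rw [List.eq_of_mem_replicate hε]
    exact one_pos) ⟨_, h1⟩
  rw [List.sum_replicate, nsmul_eq_mul, mul_one] at h2
  linarith

/-! ### The case of a tree with finite rank -/

/-- The relation which gives the norm of a tree. -/
def cmp (T : Set ℕ) (i j : ℕ) : Prop := i = j ∨ (i ∈ T ∧ j ∈ T ∧ (anc i j ∨ anc j i))

lemma exists_closed {T : Set ℕ} {lev : ℕ → ℕ}
    (hlev : ∀ k ∈ T, k ∈ (Dr anc)^[lev k] T ∧ k ∉ (Dr anc)^[lev k + 1] T) (B : Finset ℕ) :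
    ∃ A : Finset ℕ, B ⊆ A ∧ ∀ i ∈ A, ∀ j, (cmp T i j ∧ lev i = lev j) → j ∈ A := by
  classical
  have hfin : {k | ∃ i ∈ B, k = i ∨ ∃ a, (a = i ∨ anc a i) ∧ (a = k ∨ anc a k) ∧ a ∈ T ∧ k ∈ T ∧
      lev a = lev k}.Finite := by
    have h1 : {k | ∃ i ∈ B, k = i ∨ ∃ a, (a = i ∨ anc a i) ∧ (a = k ∨ anc a k) ∧ a ∈ T ∧ k ∈ T ∧
      lev a = lev k} ⊆ ⋃ i ∈ B, ({i} ∪ ⋃ a ∈ ({i} ∪ {a | anc a i}),
        ({a} ∪ {k | a ∈ T ∧ k ∈ T ∧ lev a = lev k ∧ anc a k})) := by
      rintro k ⟨i, hi, h | ⟨a, h1, h2, h3, h4, h5⟩⟩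
      · exact mem_biUnion hi (Or.inl h)
      · refine mem_biUnion hi (Or.inr (mem_biUnion (x := a) h1 ?_))
        rcases h2 with h2 | h2
        · exact Or.inl h2.symm
        · exact Or.inr ⟨h3, h4, h5, h2⟩
    refine Set.Finite.subset ?_ h1
    refine Set.Finite.biUnion B.finite_toSet fun i _ => (finite_singleton i).union ?_
    refine Set.Finite.biUnion ((finite_singleton i).union (anc_finite i)) fun a _ =>
      (finite_singleton a).union ?_
    by_cases haT : a ∈ T
    · obtain ⟨h2, h3⟩ := hlev a haT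
      rw [Function.iterate_succ_apply'] at h3
      have h4 : ∃ N, ∀ n ∈ (Dr anc)^[lev a] T, N ≤ n → ¬ anc a n := by
        by_contra h5
        push Not at h5
        exact h3 ⟨h2, h5⟩
      obtain ⟨N, hN⟩ := h4
      refine (Set.finite_Iio N).subset ?_
      rintro k ⟨_, hk, hl, hak⟩
      by_contra h6
      refine hN k ?_ (not_lt.1 h6) hak
      rw [hl]
      exact (hlev k hk).1
    · refine Set.finite_empty.subset ?_
      rintro k ⟨h, _⟩
      exact haT h
  refine ⟨hfin.toFinset, fun i hi => ?_, fun k hk k' hkk' => ?_⟩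
  · exact hfin.mem_toFinset.2 ⟨i, hi, Or.inl rfl⟩
  · rw [hfin.mem_toFinset] at hk ⊢
    obtain ⟨hcmp, hl⟩ := hkk'
    rcases hcmp with h | ⟨hkT, hkT', hr⟩
    · rwa [← h]
    obtain ⟨i, hi, h | ⟨a, h1, h2, h3, h4, h5⟩⟩ := hk
    · subst h
      rcases hr with hr | hr
      · exact ⟨k, hi, Or.inr ⟨k, Or.inl rfl, Or.inr hr, hkT, hkT', hl⟩⟩
      · exact ⟨k, hi, Or.inr ⟨k', Or.inr hr, Or.inl rfl, hkT', hkT', rfl⟩⟩
    · have h6 : anc k' a → ∃ i ∈ B, k' = i ∨ ∃ a, (a = i ∨ anc a i) ∧ (a = k' ∨ anc a k') ∧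
          a ∈ T ∧ k' ∈ T ∧ lev a = lev k' := by
        intro h7
        refine ⟨i, hi, Or.inr ⟨k', Or.inr ?_, Or.inl rfl, hkT', hkT', rfl⟩⟩
        rcases h1 with h1 | h1
        · rwa [← h1]
        · exact anc_trans h7 h1
      rcases hr with hr | hr
      · refine ⟨i, hi, Or.inr ⟨a, h1, Or.inr ?_, h3, hkT', h5.trans hl⟩⟩
        rcases h2 with h2 | h2
        · rwa [h2]
        · exact anc_trans h2 hr
      · rcases h2 with h2 | h2
        · rw [← h2] at hr
          exact h6 hr
        · rcases anc_comp h2 hr with h7 | h7 | h7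
          · exact ⟨i, hi, Or.inr ⟨a, h1, Or.inl h7, h3, hkT', h5.trans hl⟩⟩
          · exact ⟨i, hi, Or.inr ⟨a, h1, Or.inr h7, h3, hkT', h5.trans hl⟩⟩
          · exact h6 h7

theorem summable_of_rank {T : Set ℕ} {K : ℕ} (hK : (Dr anc)^[K] T = ∅)
    (hc : Codes X (nrm (cmp T)) ι) : SummableSzlenk X := by
  classical
  have h1 : ∀ k, ∃ s, s < K + 1 ∧ (k ∈ T → k ∈ (Dr anc)^[s] T ∧ k ∉ (Dr anc)^[s + 1] T) := by
    intro k
    by_cases hk : k ∈ T
    · have hex : ∃ n, k ∉ (Dr anc)^[n] T := ⟨K, by rw [hK]; exact notMem_empty _⟩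
      have h2 : k ∉ (Dr anc)^[Nat.find hex] T := Nat.find_spec hex
      have h3 : Nat.find hex ≤ K := Nat.find_min' hex (by rw [hK]; exact notMem_empty _)
      cases h4 : Nat.find hex with
      | zero =>
        rw [h4] at h2
        exact absurd hk h2
      | succ s =>
        refine ⟨s, by omega, fun _ => ⟨?_, ?_⟩⟩
        · have := Nat.find_min hex (m := s) (by omega)
          exact not_not.1 this
        · rw [← h4]
          exact h2
    · exact ⟨0, by omega, fun h => absurd h hk⟩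
  choose lev hlev1 hlev2 using h1
  refine summable_of_good (c' := fun i j => cmp T i j ∧ lev i = lev j)
    (fun i => ⟨Or.inl rfl, rfl⟩) hc ?_ (R := K + 1) (by positivity) ?_ ?_
  · intro v
    exact nrm_le fun F hF => sumOn_le_nrm (fun i hi j hj => (hF i hi j hj).1) v
  · intro v
    refine nrm_le fun F hF => ?_
    have h2 : sumOn F v = ∑ s ∈ Finset.range (K + 1), sumOn (F.filter (fun i => lev i = s)) v :=
      (Finset.sum_fiberwise_of_maps_to (fun i _ => Finset.mem_range.2 (hlev1 i)) _).symm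
    rw [h2]
    calc ∑ s ∈ Finset.range (K + 1), sumOn (F.filter (fun i => lev i = s)) v
        ≤ ∑ s ∈ Finset.range (K + 1), nrm (fun i j => cmp T i j ∧ lev i = lev j) v := by
          refine Finset.sum_le_sum fun s _ => sumOn_le_nrm ?_ v
          intro i hi j hj
          obtain ⟨h3, h4⟩ := Finset.mem_filter.1 hi
          obtain ⟨h5, h6⟩ := Finset.mem_filter.1 hj
          exact ⟨hF i h3 j h5, h4.trans h6.symm⟩
      _ = (K + 1) * nrm (fun i j => cmp T i j ∧ lev i = lev j) v := by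
          rw [Finset.sum_const, Finset.card_range, nsmul_eq_mul]
          push_cast
          rfl
  · exact exists_closed hlev2

end

end Pool.Agent.W5h44.Szlenk
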